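import Pool.Agent.Run7.h952.LW.Approx
import Pool.Agent.W13.LM.Scale

/-! # MP_0ea415_nt: Littlewood's conjecture for pairs coded by interval exchange transformations

Let `lam 1, …, lam n` be positive lengths and let `π` be a permutation of the indices. The interval
exchange transformation `T` of `[0, lam 1 + … + lam n)` cuts this interval into intervals `I 1, …, I n`
of the lengths `lam i` and rearranges them by translations in the order given by `π`. The itinerary
`s` of a point `y 0` with the orbit `y k = T ^ k (y 0)` is defined by `y k ∈ I (s k)`.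

Let `F` be any map from the indices to `ℤ × ℤ`, put `(b k, x k) = F (s k)`, and let
`α = a₀ + 1 / (b 1 - 1 / (b 2 - ...))` be the number with the backward continued fraction `b` (it is
determined by `b` and `a₀`, and exists if all `b k ≥ 2` are not eventually `2`), and
`β = ∑ x k D k`, where `D k = q k α - p k > 0` are the remainders. So `α` is badly approximable, the
code of the pair `(α, β)` is the itinerary of `T`, and its complexity is `(n - 1) m + 1` in
general.

**Theorem.** Let `π` be an arbitrary permutation. The Littlewood conjecture holds for `(α, β)`, and for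
all pairs `(r + s α, r' + s' β)` with rational coefficients, if the orbit `y` is dense and
* (1) the lengths are well approximable: for every `ε > 0` there are `0 < r < 1` and integers `a i` such
  that `|lam i - a i * r| < ε * r ^ 2` for all `i`; or
* (2) the lengths are outside a set of the first category, which depends only on `π`.
The map `F` and the point `y 0` are arbitrary.

The starting files contain the theorem that the code of a counterexample has complexity at least
`2 m - C` (this covers `n = 2`, where the itineraries are Sturmian words), and the theorem for the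
permutation which reverses the order of the intervals, where the palindromes of the itineraries are used
(`SymmetricIntervalExchanges`). The itineraries for other permutations have only finitely many
palindromes in general.

Outline of the proof.
* If the lengths are integer multiples of `r` then the orbits of the centres of the pieces of length `r`
  are periodic, the periods are at most `(lam 1 + … + lam n) / r`, and they have the distance `r / 2` from
  the endpoints (`comm_orbit`). So `N` periods persist for all lengths at distance `< c(N) r ^ 2`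
  (`approx_pow`): the itinerary contains an `N`-th power. This is an open and dense condition
  for all `N` (`generic`).
* Powers with unbounded exponents imply the conjecture (`powers_digits`): if a word of length `p` is
  repeated `N` times, then for `m` in the middle `q_(m + p) - q_m` is a denominator for which the error of
  `β` is at most `C (1 - c) ^ (N p / 2)`, while the product of the denominator and of the error of `α` is at
  most `C L ^ p`.
-/

set_option autoImplicit false

open Filter

namespace Pool.Agent.Results.MP_0ea415_nt.IntervalExchanges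

/-- Littlewood's conjecture for the pair `(α, β)` (the form of the frozen statement). -/
def Littlewood (α β : ℝ) : Prop :=
  ∀ ε : ℝ, 0 < ε → ∀ N : ℕ, ∃ q : ℕ, N ≤ q ∧ 0 < q ∧
    (q : ℝ) * |(q : ℝ) * α - (round ((q : ℝ) * α) : ℝ)|
      * |(q : ℝ) * β - (round ((q : ℝ) * β) : ℝ)| < ε

/-- the left endpoint of the interval `I i` -/
noncomputable def left {n : ℕ} (lam : Fin n → ℝ) (i : Fin n) : ℝ :=
  ∑ j ∈ Finset.univ.filter (fun j => j < i), lam j

/-- the left endpoint of the image `T (I i)` -/
noncomputable def imageLeft {n : ℕ} (lam : Fin n → ℝ) (π : Equiv.Perm (Fin n)) (i : Fin n) : ℝ :=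
  ∑ j ∈ Finset.univ.filter (fun j => π j < π i), lam j

/-- `y` is an orbit of the interval exchange transformation and `s` is its itinerary:
`y k ∈ I (s k) = [left (s k), left (s k) + lam (s k))` and `y (k + 1) = T (y k)`. -/
structure IsOrbit {n : ℕ} (lam : Fin n → ℝ) (π : Equiv.Perm (Fin n)) (y : ℕ → ℝ) (s : ℕ → Fin n) :
    Prop where
  le : ∀ k, left lam (s k) ≤ y k
  lt : ∀ k, y k < left lam (s k) + lam (s k)
  step : ∀ k, y (k + 1) = y k - left lam (s k) + imageLeft lam π (s k)

/-- `y` visits every subinterval infinitely often -/
def DenseOrbit {n : ℕ} (lam : Fin n → ℝ) (y : ℕ → ℝ) : Prop :=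
  ∀ u v : ℝ, 0 ≤ u → u < v → v ≤ ∑ j, lam j → ∀ K : ℕ, ∃ k ≥ K, u < y k ∧ y k < v

/-- the lengths are close to integer multiples of arbitrarily small numbers, with an error which
is small with respect to the square -/
def WellApproximable {n : ℕ} (lam : Fin n → ℝ) : Prop :=
  ∀ ε : ℝ, 0 < ε → ∃ r : ℝ, 0 < r ∧ r < 1 ∧ ∃ a : Fin n → ℤ, ∀ i, |lam i - a i * r| < ε * r ^ 2

/-- `α = a₀ + 1 / (b 1 - 1 / (b 2 - ...))` with remainders `1 = D 0 > D 1 > D 2 > ... > 0` -/
structure Backward (α : ℝ) (a₀ : ℤ) (b : ℕ → ℤ) (D : ℕ → ℝ) : Prop where
  zero : D 0 = 1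
  one : D 1 = α - a₀
  step : ∀ k, D (k + 2) = b (k + 1) * D (k + 1) - D k
  pos : ∀ k, 0 < D (k + 1)
  lt : ∀ k, D (k + 1) < D k

/-- Littlewood's conjecture for the pairs coded by dense orbits of the interval exchange
transformation, for all labellings `F` -/
def LittlewoodForCodes {n : ℕ} (lam : Fin n → ℝ) (π : Equiv.Perm (Fin n)) : Prop :=
  ∀ (y : ℕ → ℝ) (s : ℕ → Fin n), IsOrbit lam π y s → DenseOrbit lam y →
    ∀ (F : Fin n → ℤ × ℤ) (b x : ℕ → ℤ), (∀ k, (b k, x k) = F (s k)) →
      ∀ (α : ℝ) (a₀ : ℤ) (D : ℕ → ℝ), Backward α a₀ b D →
        ∀ u v u' v' : ℚ, Littlewood (u + v * α) (u' + v' * ∑' k : ℕ, (x k : ℝ) * D k)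

theorem result (n : ℕ) (π : Equiv.Perm (Fin n)) :
    -- (1) well approximable lengths
    (∀ lam : Fin n → ℝ, (∀ i, 0 < lam i) → WellApproximable lam → LittlewoodForCodes lam π) ∧
    -- (2) generic lengths
    (∀ᶠ lam in residual (Fin n → ℝ), (∀ i, 0 < lam i) → LittlewoodForCodes lam π) := by
  have key : ∀ lam : Fin n → ℝ, (∀ i, 0 < lam i) → (∀ N, Run7.h952.LW.HasPow lam π N) →
      LittlewoodForCodes lam π := by
    intro lam hlam hpow y s Hy hd F b x hF α a₀ D H u v u' v'
    let S : ℕ → ℤ × ℤ := fun k => Nat.rec (0, 1) (fun k v => (v.2, b (k + 1) * v.2 - v.1)) k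
    have hS0 : S 0 = (0, 1) := rfl
    have hS : ∀ k, S (k + 1) = ((S k).2, b (k + 1) * (S k).2 - (S k).1) := fun k => rfl
    have E : Pool.Agent.W13.LM.Exp α a₀ b (fun k => (S k).1) D :=
      ⟨H.zero, H.one, H.step, H.pos, H.lt, by rw [hS0], by
      change (S (0 + 1)).1 = 1
      rw [hS, hS0], fun k => by
      change (S (k + 1 + 1)).1 = b (k + 1) * (S (k + 1)).1 - (S k).1
      rw [hS (k + 1), hS k]⟩
    exact (Run7.h952.LW.code_pow hlam hpow ⟨Hy.le, Hy.lt, Hy.step⟩ hd F x hF E).rat u v u' v'
  rcases Nat.eq_zero_or_pos n with hn | hn
  · subst hn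
    exact ⟨fun lam _ _ y s => (s 0).elim0, Eventually.of_forall fun lam _ y s => (s 0).elim0⟩
  · exact ⟨fun lam hlam hap => key lam hlam (Run7.h952.LW.approx_pow hn π hlam hap),
      (Run7.h952.LW.generic hn π).mono fun lam hgen hlam => key lam hlam (hgen hlam)⟩

end Pool.Agent.Results.MP_0ea415_nt.IntervalExchanges
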