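import Mathlib
import Pool.Agent.Run7.h88.LQ.Values
import Pool.Agent.N440.FO.Gen2

/-!
# MP_0ea415_nt: Littlewood's conjecture for EVERY `α` and random series `β`, also of dimension zero

**1. Every `α`.** Let `β = y + ∑ ε_n r_n`, where `y` is any real number, `∑ r_n` is any absolutely
convergent series of rational numbers `r_n ≠ 0`, and the `ε_n` are independent random integers,
`|ε_n| ≤ M`, no value of `ε_n` having a probability greater than `1 - δ_n`. Let
`∑ δ_n / log (1 + den r_n) = ∞`. Then for every real `α` (hence for all `α` in a given countable set,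
for instance for all real algebraic numbers, at once) almost surely
`liminf q ‖qα‖ ‖qβ‖ = 0`. If `α` is badly approximable, then almost surely for all real shifts `γ` at
once every `τ ≥ 0` is a limit value of `q ‖qα‖ ‖qβ - γ‖`.

Examples: `β = y + ∑ ± 1 / n!` with random signs; `β = y + ∑ ± 1 / n ^ 2`; the digits of `y` in base
`a` at the places `n` of a set `S` with `∑_(n ∈ S) 1 / n = ∞`, for instance at the prime places, are
changed at random. The laws of such `β` may have dimension zero, so the theorem of Einsiedler, Katok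
and Lindenstrauss (the exceptional pairs form a set of dimension zero) gives no information.

**2. All quadratic `α` at once, arbitrarily sparse digits.** Let `a ≥ 2` and
`β = y + ∑ ε_n / a ^ (n + 1)`. Almost surely the following holds for ALL real quadratic irrationals
`α` and all real shifts `γ` at once: every `τ ≥ 0` is a limit value of `q ‖qα‖ ‖qβ - γ‖`. This is so
* (dependent digits) if there are `δ_n ≥ 0` with `∑ δ_n = ∞` such that the conditional probability of
  any value of the `n`-th digit, given any values of finitely many other digits, earlier or later, is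
  at most `1 - δ_n`; and
* (independent digits) if the digits are independent and the law of `β` has no atoms.
Here the `δ_n` may vanish outside of an arbitrarily sparse infinite set.

The proofs. 1. Let `q_j` be the denominators of the convergents of a badly approximable `α`. For a
fraction `r` with denominator `b` at least one of `C log b` consecutive numbers `q_j r` is not near
an integer, since a stretch of near integers gives a solution of the recurrence of the `q_j` with
values in `(1/b) ℤ`, which first decreases and then increases exponentially. Hence there are `j` for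
which many of the numbers `q_j r_n` are not near an integer, so the law of `q_j β` modulo one is nearly
uniform, even conditionally on the first terms of the series. By a second moment argument the
multiples `q_j β` are dense modulo one for these `j`. 2. The multiples of the Lucas sequence
`U_(k+2) = 2 X U_(k+1) - U_k`, `X ^ 2 - D Y ^ 2 = 1`, are good denominators of `α`. For fixed sums of
digits there is cancellation in `∑_(r < R) e(m U_r c / a ^ n)`, uniformly for `n₀ ≤ n ≤ N`: on the
residue classes modulo a suitable `2 h` the sequence `U` is linear modulo `a ^ n`, and only few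
classes have a slope divisible by a high power of `p`. -/

set_option autoImplicit false

open MeasureTheory ProbabilityTheory Set Filter

namespace Pool.Agent.Results.MP_0ea415_nt.RandomSeries

/-- Littlewood's conjecture for the pair `(α, β)`: `liminf q ‖qα‖ ‖qβ‖ = 0`, where
`‖x‖ = |x - round x|` is the distance to the nearest integer. -/
def Littlewood (α β : ℝ) : Prop :=
  ∀ ε : ℝ, 0 < ε → ∃ᶠ q : ℕ in atTop,
    (q : ℝ) * |q * α - round (q * α)| * |q * β - round (q * β)| < ε

/-- For all real `γ`, every `τ ≥ 0` is a limit value of `q ‖qα‖ ‖qβ - γ‖`. -/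
def AllValues (α β : ℝ) : Prop :=
  ∀ γ τ : ℝ, 0 ≤ τ → ∀ ε : ℝ, 0 < ε → ∃ᶠ q : ℕ in atTop,
    |(q : ℝ) * |q * α - round (q * α)| * |(q * β - γ) - round (q * β - γ)| - τ| < ε

/-- `inf q ‖qα‖ > 0` -/
def BadlyApproximable (α : ℝ) : Prop :=
  ∃ c : ℝ, 0 < c ∧ ∀ q : ℕ, 1 ≤ q → c ≤ (q : ℝ) * |q * α - round (q * α)|

/-- `α` is a real quadratic irrational. -/
def Quadratic (α : ℝ) : Prop :=
  Irrational α ∧ ∃ A B C : ℤ, A ≠ 0 ∧ (A : ℝ) * α ^ 2 + B * α + C = 0

/-- `y + ∑ ε_n r_n` -/
noncomputable def series {Ω : Type*} (r : ℕ → ℚ) (ε : ℕ → Ω → ℤ) (y : ℝ) (ω : Ω) : ℝ :=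
  y + ∑' n, (ε n ω : ℝ) * (r n : ℝ)

/-- the number with the digits `ε 0, ε 1, …` in base `a`, translated by `y` -/
noncomputable def num {Ω : Type*} (a : ℕ) (ε : ℕ → Ω → ℤ) (y : ℝ) (ω : Ω) : ℝ :=
  y + ∑' n, (ε n ω : ℝ) / (a : ℝ) ^ (n + 1)

/-- no value of `ε n` has a probability greater than `1 - δ n` -/
def Nondegenerate {Ω : Type*} [MeasurableSpace Ω] (μ : Measure Ω) (ε : ℕ → Ω → ℤ) (δ : ℕ → ℝ) :
    Prop :=
  ∀ n, 0 ≤ δ n ∧ ∀ u : ℤ, μ.real {ω | ε n ω = u} ≤ 1 - δ n

/-- the event that the digits at the places of `F` are those of `u` -/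
def cyl {Ω : Type*} (ε : ℕ → Ω → ℤ) (F : Finset ℕ) (u : ℕ → ℤ) : Set Ω :=
  {ω | ∀ m ∈ F, ε m ω = u m}

/-- the conditional probability of any value of the digit `n`, given any values of finitely many
other digits, is at most `1 - δ n` -/
def CondBound {Ω : Type*} [MeasurableSpace Ω] (μ : Measure Ω) (ε : ℕ → Ω → ℤ) (δ : ℕ → ℝ) : Prop :=
  ∀ (n : ℕ) (F : Finset ℕ) (u : ℕ → ℤ), n ∉ F →
    μ.real (cyl ε (insert n F) u) ≤ (1 - δ n) * μ.real (cyl ε F u)

/-- **Littlewood's conjecture for every `α` and random series `β`.** -/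
theorem result {Ω : Type*} [MeasurableSpace Ω] (μ : Measure Ω) [IsProbabilityMeasure μ]
    (ε : ℕ → Ω → ℤ) (hε : ∀ n, Measurable (ε n)) (M : ℤ) (hM : ∀ n ω, |ε n ω| ≤ M) (y : ℝ) :
    (iIndepFun ε μ → ∀ r : ℕ → ℚ, (∀ n, r n ≠ 0) → Summable (fun n => |(r n : ℝ)|) →
      ∀ δ : ℕ → ℝ, Nondegenerate μ ε δ →
        ¬ Summable (fun n => δ n / Real.log (1 + ((r n).den : ℝ))) →
          ∀ C : Set ℝ, C.Countable → ∀ᵐ ω ∂μ, ∀ α ∈ C,
            Littlewood α (series r ε y ω) ∧
              (BadlyApproximable α → AllValues α (series r ε y ω))) ∧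
    (∀ a : ℕ, 2 ≤ a →
      ((∃ δ : ℕ → ℝ, (∀ n, 0 ≤ δ n) ∧ ¬ Summable δ ∧ CondBound μ ε δ) ∨
        (iIndepFun ε μ ∧ ∀ t : ℝ, μ {ω | num a ε y ω = t} = 0)) →
          ∀ᵐ ω ∂μ, ∀ α : ℝ, Quadratic α → AllValues α (num a ε y ω)) := by
  refine ⟨?_, ?_⟩
  · intro hind r hr0 hr δ hδ hdiv C hC
    rw [ae_ball_iff hC]
    intro α _
    by_cases hbad : BadlyApproximable α
    · filter_upwards [Run7.h88.LQ.bad_values (μ := μ) hbad hr0 hr hε hind hM y
        (fun n => (hδ n).1) (fun n => (hδ n).2) hdiv] with ω hω
      refine ⟨?_, fun _ => hω⟩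
      intro e he
      refine (hω 0 0 le_rfl e he).mono fun q hq => ?_
      rw [sub_zero, sub_zero] at hq
      exact lt_of_le_of_lt (le_abs_self _) hq
    · refine Filter.Eventually.of_forall fun ω => ⟨?_, fun h => absurd h hbad⟩
      intro e he
      exact Run7.h88.LQ.not_bad hbad _ he
  · rintro a ha (⟨δ, h0, hns, hc⟩ | ⟨hind, hat⟩)
    · filter_upwards [Run7.h88.LQ.dense_rec (μ := μ) ha hε hM (y := y) hc h0 hns] with ω hω
      rintro α ⟨hirr, hq⟩ γ τ hτ e he
      exact Run7.h88.LQ.quad_values hirr hq hω γ hτ he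
    · obtain ⟨δ, hc, h0, hns⟩ :=
        Pool.Agent.N440.FO.cond_of_indep (μ := μ) ha hε hind hM (y := y) hat
      filter_upwards [Run7.h88.LQ.dense_rec (μ := μ) ha hε hM (y := y) hc h0 hns] with ω hω
      rintro α ⟨hirr, hq⟩ γ τ hτ e he
      exact Run7.h88.LQ.quad_values hirr hq hω γ hτ he

end Pool.Agent.Results.MP_0ea415_nt.RandomSeries
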