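import Mathlib
import Pool.Agent.Run7.h566.LS.Many
import Pool.Agent.Run7.h566.LS.Few
import Pool.Agent.Run7.h566.CS.Low

/-! # MP_0ea415_nt: the small solutions of a counterexample to Littlewood's conjecture

Let `r ≥ 1` and let `α_1, …, α_r` be real numbers with `q ‖q α_1‖ ⋯ ‖q α_r‖ ≥ ν > 0` for all `q ≥ 1`
(`r = 2`: a counterexample to Littlewood's conjecture; `r = 1`: a badly approximable number). For
`T > 0` let `S(X)` be the set of the integer points `z = (q, p_1, …, p_r)` with `1 ≤ q ≤ X` and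
`q |α_1 q - p_1| ⋯ |α_r q - p_r| < T`. All constants depend only on `r, n, ν, T`, not on the `α_i`.

(1) `S(X)` has at most `C (log X) ^ r` members, and at least `c (log X) ^ r` for `X ≥ X₀` if
    `T > (r + 1)! / (r + 1) ^ (r + 1)` (`T > 2 / 9` for Littlewood's conjecture).
(2) At most `C (log X) ^ (r - 1)` points of `S(X)` are zeros of a given form `P ≠ 0` of degree `n`:
    the good approximations `(p_1 / q, …, p_r / q)` avoid the algebraic hypersurfaces. For `r = 2`:
    of the `≍ (log X) ^ 2` solutions only `O(log X)` lie on a curve of degree `n`.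
(3) More generally, if `W` is a subgroup of the real numbers and no multiple `N P`, `N ≥ 1`, has all
    its coefficients in `W`, then `P(z)` is in `W` for at most `C (log X) ^ (r - 1)` points of `S(X)`.
(4) Let `T > (r + 1)! / (r + 1) ^ (r + 1)` and `X ≥ X₀`. If `P` is not proportional to a form over the
    subfield `K` of the real numbers, then `P(z) / P(z')` is in `K` for at most the share `C / log X`
    of the pairs of points of `S(X)`.
(5) If `P` has `k` coefficients which are linearly (algebraically) independent over `ℚ`, then the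
    values of `P` at the members of a `k`-tuple of points of `S(X)` are linearly (algebraically)
    independent except for at most the share `C k / log X` of the `k`-tuples.
(6) If some `α_i` is not in `K`, in particular for `K = ℚ`, then the quotient of the numbers
    `q (α_1 q - p_1) ⋯ (α_r q - p_r)` at two points of `S(X)` is in `K` for at most the share
    `C / log X` of the pairs.

So if more than `C log X` good approximations of `(α, β)` lie on one algebraic curve of degree `n` for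
arbitrarily large `X` and every `C`, then Littlewood's conjecture holds for `(α, β)`.

The proof adapts the theorems on forms bounded below at all integer points of the starting files
`Pool/Agent/N759/FV` (tropical argument: two monomials of `P` are of the same size at a zero) to the
forms `q (α_1 q - p_1) ⋯ (α_r q - p_r)`, which vanish for `q = 0`: the lattices
`diag(exp(- s_1 - ⋯ - s_r), exp s_1, …, exp s_r) g ℤ ^ (r + 1)` of the solutions have no short vectors. -/

set_option autoImplicit false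

open MvPolynomial

namespace Pool.Agent.Results.MP_0ea415_nt.SmallSolutions

/-- `q ‖q α_1‖ ⋯ ‖q α_r‖ ≥ ν` for all `q ≥ 1` -/
def Bounded {r : ℕ} (α : Fin r → ℝ) (ν : ℝ) : Prop :=
  ∀ q : ℕ, 1 ≤ q → ν ≤ (q : ℝ) * ∏ i, |(q : ℝ) * α i - (round ((q : ℝ) * α i) : ℝ)|

/-- the points `z = (q, p_1, …, p_r)` with `1 ≤ q ≤ X` and `q ∏ |α_i q - p_i| < T` -/
def Sol {r : ℕ} (α : Fin r → ℝ) (T X : ℝ) : Set (Fin (r + 1) → ℤ) :=
  {z | 1 ≤ z 0 ∧ (z 0 : ℝ) ≤ X ∧ (z 0 : ℝ) * ∏ i : Fin r, |α i * z 0 - z i.succ| < T}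

/-- the value of `P` at the integer point `z` -/
noncomputable def val {d : ℕ} (P : MvPolynomial (Fin d) ℝ) (z : Fin d → ℤ) : ℝ :=
  eval (fun i => (z i : ℝ)) P

/-- the product `q (α_1 q - p_1) ⋯ (α_r q - p_r)` -/
def prodAt {r : ℕ} (α : Fin r → ℝ) (z : Fin (r + 1) → ℤ) : ℝ :=
  (z 0 : ℝ) * ∏ i : Fin r, (α i * z 0 - z i.succ)

/-- the form `q (α_1 q - p_1) ⋯ (α_r q - p_r)` -/
noncomputable def prodForm {r : ℕ} (α : Fin r → ℝ) : MvPolynomial (Fin (r + 1)) ℝ :=
  X 0 * ∏ i : Fin r, (C (α i) * X 0 - X i.succ)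

lemma prodForm_hom {r : ℕ} (α : Fin r → ℝ) : (prodForm α).IsHomogeneous (r + 1) := by
  have h1 : (∏ i : Fin r, (C (α i) * X 0 - X i.succ) : MvPolynomial (Fin (r + 1)) ℝ).IsHomogeneous
      (∑ _i : Fin r, 1) := by
    refine IsHomogeneous.prod _ _ _ fun i _ => ?_
    exact (isHomogeneous_C_mul_X _ _).sub (isHomogeneous_X _ _)
  have h2 := (isHomogeneous_X ℝ (0 : Fin (r + 1))).mul h1
  have h3 : 1 + ∑ _i : Fin r, 1 = r + 1 := by
    simp [add_comm]
  rw [h3] at h2
  exact h2

lemma val_prodForm {r : ℕ} (α : Fin r → ℝ) (z : Fin (r + 1) → ℤ) :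
    val (prodForm α) z = prodAt α z := by
  simp [val, prodForm, prodAt]

lemma prod_eq {r : ℕ} (α : Fin r → ℝ) (z : Fin (r + 1) → ℤ) (hz : 1 ≤ z 0) :
    |∏ i, (Matrix.mulVec (Pool.Agent.Run7.h566.LS.gg α) (H715R2.iR z)) i| =
      (z 0 : ℝ) * ∏ i : Fin r, |α i * z 0 - z i.succ| := by
  have h0 : (0 : ℝ) ≤ z 0 := by
    have : (1 : ℝ) ≤ z 0 := by exact_mod_cast hz
    linarith
  rw [Fin.prod_univ_succ, abs_mul, Finset.abs_prod, Pool.Agent.Run7.h566.LS.gg_zero,
    abs_of_nonneg h0]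
  congr 1
  exact Finset.prod_congr rfl fun i _ => by rw [Pool.Agent.Run7.h566.LS.gg_succ]

lemma exists_bound {r : ℕ} (α : Fin r → ℝ) (ε : ℝ) (hε : 0 < ε) (N : ℕ)
    (h : ∀ q : ℕ, N ≤ q → ε ≤ (q : ℝ) * ∏ i, |(q : ℝ) * α i - (round ((q : ℝ) * α i) : ℝ)|) :
    ∃ ν : ℝ, 0 < ν ∧ Bounded α ν := by
  have hpos : ∀ q : ℕ, 1 ≤ q →
      0 < (q : ℝ) * ∏ i, |(q : ℝ) * α i - (round ((q : ℝ) * α i) : ℝ)| := by
    intro q hq
    have hq0 : (0 : ℝ) < q := by exact_mod_cast hq
    refine mul_pos hq0 (Finset.prod_pos fun i _ => ?_)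
    rw [abs_pos]
    intro h0
    have h1 := h ((N + 1) * q) (by nlinarith)
    have h2 : ((((N + 1) * q : ℕ) : ℝ) * α i) = (((N + 1 : ℕ) : ℤ) * round ((q : ℝ) * α i) : ℤ) := by
      push_cast
      have h3 : (q : ℝ) * α i = (round ((q : ℝ) * α i) : ℝ) := by linarith
      calc ((N : ℝ) + 1) * q * α i = ((N : ℝ) + 1) * (q * α i) := by ring
        _ = ((N : ℝ) + 1) * (round ((q : ℝ) * α i) : ℝ) := by rw [← h3]
    have h4 : |((((N + 1) * q : ℕ) : ℝ) * α i) - (round ((((N + 1) * q : ℕ) : ℝ) * α i) : ℝ)| = 0 := by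
      rw [h2, round_intCast, sub_self, abs_zero]
    rw [Finset.prod_eq_zero (Finset.mem_univ i) h4, mul_zero] at h1
    linarith
  have hfin : ∃ δ : ℝ, 0 < δ ∧ ∀ q ∈ Finset.Icc 1 N,
      δ ≤ (q : ℝ) * ∏ i, |(q : ℝ) * α i - (round ((q : ℝ) * α i) : ℝ)| := by
    rcases (Finset.Icc 1 N).eq_empty_or_nonempty with he | hne
    · exact ⟨1, one_pos, fun q hq => by rw [he] at hq; exact absurd hq (Finset.notMem_empty _)⟩
    · obtain ⟨q₀, hq₀, hmin⟩ := Finset.exists_min_image (Finset.Icc 1 N)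
        (fun q : ℕ => (q : ℝ) * ∏ i, |(q : ℝ) * α i - (round ((q : ℝ) * α i) : ℝ)|) hne
      exact ⟨_, hpos q₀ (Finset.mem_Icc.1 hq₀).1, hmin⟩
  obtain ⟨δ, hδ, hδ'⟩ := hfin
  refine ⟨min δ ε, lt_min hδ hε, fun q hq => ?_⟩
  rcases le_total q N with hqN | hqN
  · exact (min_le_left _ _).trans (hδ' q (Finset.mem_Icc.2 ⟨hq, hqN⟩))
  · exact (min_le_right _ _).trans (h q hqN)

theorem result (r n : ℕ) (hr : 1 ≤ r) :
    -- (0) the counterexamples
    (∀ α : Fin r → ℝ, (∃ ε : ℝ, 0 < ε ∧ ∃ N : ℕ, ∀ q : ℕ, N ≤ q →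
      ε ≤ (q : ℝ) * ∏ i, |(q : ℝ) * α i - (round ((q : ℝ) * α i) : ℝ)|) →
        ∃ ν : ℝ, 0 < ν ∧ Bounded α ν) ∧
    ∀ ν T : ℝ, 0 < ν → 0 < T →
    (∃ C₀ : ℝ, 0 < C₀ ∧ ∀ α : Fin r → ℝ, Bounded α ν → ∀ X : ℝ, 3 ≤ X →
      -- (1) all solutions, upper bound
      (Sol α T X).Finite ∧ ((Sol α T X).ncard : ℝ) ≤ C₀ * Real.log X ^ r ∧
      ∀ P : MvPolynomial (Fin (r + 1)) ℝ, P.IsHomogeneous n →
        -- (2) solutions on a hypersurface
        (P ≠ 0 → ({z ∈ Sol α T X | val P z = 0}.ncard : ℝ) ≤ C₀ * Real.log X ^ (r - 1)) ∧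
        -- (3) solutions with values in a subgroup
        ∀ W : AddSubgroup ℝ, (¬ ∃ N : ℕ, 0 < N ∧ ∀ m, (N : ℝ) * coeff m P ∈ W) →
          ({z ∈ Sol α T X | val P z ∈ W}.ncard : ℝ) ≤ C₀ * Real.log X ^ (r - 1)) ∧
    (((r + 1).factorial : ℝ) < ((r + 1 : ℕ) : ℝ) ^ (r + 1) * T →
      ∃ C₁ c X₀ : ℝ, 0 < C₁ ∧ 0 < c ∧ 3 ≤ X₀ ∧ ∀ α : Fin r → ℝ, Bounded α ν → ∀ X : ℝ, X₀ ≤ X →
      -- (1) all solutions, lower bound
      c * Real.log X ^ r ≤ ((Sol α T X).ncard : ℝ) ∧
      (∀ P : MvPolynomial (Fin (r + 1)) ℝ, P.IsHomogeneous n →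
        -- (4) subfields
        (∀ K : Subfield ℝ, (¬ ∃ t : ℝ, t ≠ 0 ∧ ∀ m, t * coeff m P ∈ K) →
          ({z : (Fin (r + 1) → ℤ) × (Fin (r + 1) → ℤ) | z.1 ∈ Sol α T X ∧ z.2 ∈ Sol α T X ∧
            val P z.1 / val P z.2 ∈ K}.ncard : ℝ) ≤
              C₁ / Real.log X * ((Sol α T X).ncard : ℝ) ^ 2) ∧
        -- (5) linear and algebraic independence
        (∀ k : ℕ, (∃ m : Fin k → (Fin (r + 1) →₀ ℕ),
            LinearIndependent ℚ (fun i => coeff (m i) P)) →
          ({z : Fin k → (Fin (r + 1) → ℤ) | (∀ i, z i ∈ Sol α T X) ∧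
            ¬ LinearIndependent ℚ (fun i => val P (z i))}.ncard : ℝ) ≤
              C₁ * k / Real.log X * ((Sol α T X).ncard : ℝ) ^ k) ∧
        (∀ k : ℕ, (∃ m : Fin k → (Fin (r + 1) →₀ ℕ),
            AlgebraicIndependent ℚ (fun i => coeff (m i) P)) →
          ({z : Fin k → (Fin (r + 1) → ℤ) | (∀ i, z i ∈ Sol α T X) ∧
            ¬ AlgebraicIndependent ℚ (fun i => val P (z i))}.ncard : ℝ) ≤
              C₁ * k / Real.log X * ((Sol α T X).ncard : ℝ) ^ k)) ∧
      -- (6) the quotients of the products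
      ∀ K : Subfield ℝ, (∃ i, α i ∉ K) →
        ({z : (Fin (r + 1) → ℤ) × (Fin (r + 1) → ℤ) | z.1 ∈ Sol α T X ∧ z.2 ∈ Sol α T X ∧
          prodAt α z.1 / prodAt α z.2 ∈ K}.ncard : ℝ) ≤
            C₁ / Real.log X * ((Sol α T X).ncard : ℝ) ^ 2) := by
  classical
  have hr0 : 0 < r := hr
  refine ⟨fun α ⟨ε, hε, N, h⟩ => exists_bound α ε hε N h, fun ν T hν hT => ?_⟩
  obtain ⟨M, hM⟩ := Pool.Agent.Run7.h566.LS.loc_bad r hν hT
  obtain ⟨Ca, hCa, Ha⟩ := Pool.Agent.Run7.h566.LS.count_gen r T hν M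
  have hB := fun n : ℕ => Pool.Agent.Run7.h566.LS.coeffs_gen (r := r) n T hν M
  -- the size of the solutions
  set L : ℝ := 1 + |Real.log (T / ν)| with hL
  have hL1 : 1 ≤ L := by rw [hL]; linarith [abs_nonneg (Real.log (T / ν))]
  have hlog : ∀ X : ℝ, 3 ≤ X → 1 ≤ Real.log X := by
    intro X hX
    rw [Real.le_log_iff_exp_le (by linarith)]
    exact (Real.exp_one_lt_d9.le.trans (by norm_num)).trans hX
  have hbox : ∀ α : Fin r → ℝ, Bounded α ν → ∀ X : ℝ, 3 ≤ X → ∀ z ∈ Sol α T X,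
      ∀ i, |(Matrix.mulVec (Pool.Agent.Run7.h566.LS.gg α) (H715R2.iR z)) i| ≤
        Real.exp (L * Real.log X) := by
    intro α hα X hX z hz i
    have hlX := hlog X hX
    have hX0 : 0 < X := by linarith
    have h1 : Real.log X + |Real.log (T / ν)| ≤ L * Real.log X := by
      rw [hL]
      nlinarith [abs_nonneg (Real.log (T / ν))]
    have hz0 : (1 : ℝ) ≤ z 0 := by exact_mod_cast hz.1
    refine Fin.cases ?_ (fun k => ?_) i
    · rw [Pool.Agent.Run7.h566.LS.gg_zero, abs_of_nonneg (by linarith)]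
      refine hz.2.1.trans ?_
      rw [← Real.log_le_iff_le_exp hX0]
      linarith [abs_nonneg (Real.log (T / ν))]
    · refine (Pool.Agent.Run7.h566.LS.bad_coord (Λ := T) hν hα z (by have := hz.1; omega)
        (by rw [prod_eq α z hz.1]; exact hz.2.2.le) k).trans ?_
      rw [← Real.log_le_iff_le_exp (div_pos hT hν)]
      linarith [le_abs_self (Real.log (T / ν))]
  have hfin : ∀ α : Fin r → ℝ, Bounded α ν → ∀ X : ℝ, 3 ≤ X → (Sol α T X).Finite := by
    intro α hα X hX
    refine (Pool.Agent.Run7.h566.CS.small_finite (Pool.Agent.Run7.h566.LS.gg α)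
      (Pool.Agent.Run7.h566.LS.gg_det_ne α) (fun _ => 1) (fun _ => one_pos)
      (L * Real.log X)).subset fun z hz i => ?_
    rw [one_mul]
    exact hbox α hα X hX z hz i
  have hloc : ∀ α : Fin r → ℝ, Bounded α ν → ∀ X : ℝ, ∀ S : Finset (Fin (r + 1) → ℤ),
      (∀ z ∈ S, z ∈ Sol α T X) → Pool.Agent.Run7.h566.LS.Loc ν T M
        (fun z => Matrix.mulVec (Pool.Agent.Run7.h566.LS.gg α) (H715R2.iR z)) S := by
    intro α hα X S hS
    refine hM α hα S fun z hz => ⟨?_, ?_⟩
    · have := (hS z hz).1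
      omega
    · rw [prod_eq α z (hS z hz).1]
      exact (hS z hz).2.2.le
  -- few solutions with values in a subgroup
  have hfew : ∀ n : ℕ, ∃ Cb : ℝ, 0 < Cb ∧ ∀ α : Fin r → ℝ, Bounded α ν → ∀ X : ℝ, 3 ≤ X →
      ∀ S : Finset (Fin (r + 1) → ℤ), (∀ z ∈ S, z ∈ Sol α T X) →
      ∀ P : MvPolynomial (Fin (r + 1)) ℝ, P.IsHomogeneous n →
      Pool.Agent.Run7.h566.LS.FewIn S (val P) (fun m => coeff m P)
        (Cb * Real.log X ^ (r - 1)) := by
    intro n
    obtain ⟨Cb, hCb, Hb⟩ := hB n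
    refine ⟨Cb * L ^ (r - 1), by positivity, fun α hα X hX S hS P hP W hW S' hS' hq => ?_⟩
    by_contra hcard
    have hlX := hlog X hX
    have h1 : Cb * (L * Real.log X) ^ (r - 1) < (S'.card : ℝ) := by
      rw [mul_pow, ← mul_assoc]
      exact not_le.1 hcard
    obtain ⟨N, hN0, h⟩ := Hb (Pool.Agent.Run7.h566.LS.gg α)
      (Pool.Agent.Run7.h566.LS.gg_det_ne α) S'
      (hloc α hα X S' fun z hz => hS z (hS' hz)) (L * Real.log X) (by nlinarith)
      (fun z hz => hbox α hα X hX z (hS z (hS' hz))) h1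
    refine hW ⟨N, hN0, fun m => ?_⟩
    refine (AddSubgroup.closure_le W).2 ?_ (h P hP m)
    rintro _ ⟨p, hp, rfl⟩
    exact hq p hp
  obtain ⟨Cb, hCb, Fb⟩ := hfew n
  obtain ⟨Cc, hCc, Fc⟩ := hfew (r + 1)
  refine ⟨⟨Ca * L ^ r + Cb, by positivity, fun α hα X hX => ⟨hfin α hα X hX, ?_, fun P hP => ?_⟩⟩,
    fun hTm => ?_⟩
  · have hlX := hlog X hX
    rw [Set.ncard_eq_toFinset_card _ (hfin α hα X hX)]
    have h1 := Ha (fun z => Matrix.mulVec (Pool.Agent.Run7.h566.LS.gg α) (H715R2.iR z))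
      (hfin α hα X hX).toFinset (hloc α hα X _ fun z hz => by
        rwa [Set.Finite.mem_toFinset] at hz) (L * Real.log X) (by nlinarith)
      (fun z hz => hbox α hα X hX z (by rwa [Set.Finite.mem_toFinset] at hz))
    refine h1.trans ?_
    rw [mul_pow, ← mul_assoc]
    refine mul_le_mul_of_nonneg_right ?_ (by positivity)
    linarith
  · have hlX := hlog X hX
    have hsub : ∀ W : AddSubgroup ℝ, (¬ ∃ N : ℕ, 0 < N ∧ ∀ m, (N : ℝ) * coeff m P ∈ W) →
        ({z ∈ Sol α T X | val P z ∈ W}.ncard : ℝ) ≤ (Ca * L ^ r + Cb) * Real.log X ^ (r - 1) := by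
      intro W hW
      have hf : {z ∈ Sol α T X | val P z ∈ W}.Finite :=
        (hfin α hα X hX).subset fun z hz => hz.1
      rw [Set.ncard_eq_toFinset_card _ hf]
      have h1 := Fb α hα X hX (hfin α hα X hX).toFinset (fun z hz => by
        rwa [Set.Finite.mem_toFinset] at hz) P hP W hW hf.toFinset (fun z hz => by
          rw [Set.Finite.mem_toFinset] at hz ⊢
          exact hz.1) (fun z hz => by
          rw [Set.Finite.mem_toFinset] at hz
          exact hz.2)
      refine h1.trans (mul_le_mul_of_nonneg_right ?_ (by positivity))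
      have : 0 ≤ Ca * L ^ r := by positivity
      linarith
    refine ⟨fun hP0 => ?_, hsub⟩
    have h1 := hsub ⊥ (fun ⟨N, hN0, hN⟩ => hP0 (MvPolynomial.ext _ _ fun m => by
      have h1 := hN m
      rw [AddSubgroup.mem_bot] at h1
      have hN' : (N : ℝ) ≠ 0 := by exact_mod_cast hN0.ne'
      rcases mul_eq_zero.1 h1 with h | h
      · exact absurd h hN'
      · rw [h, coeff_zero]))
    simpa only [AddSubgroup.mem_bot] using h1
  · obtain ⟨c, x₀, hc, hx₀, Hm⟩ := Pool.Agent.Run7.h566.LS.many_bad r hr0 hν hTm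
    set Cm : ℝ := 2 * (Cb + Cc) / c with hCm
    refine ⟨Cm, c, max 3 (Real.exp x₀), by positivity, hc, le_max_left _ _, fun α hα X hX => ?_⟩
    have hX3 : 3 ≤ X := (le_max_left _ _).trans hX
    have hX0 : 0 < X := by linarith
    have hlX := hlog X hX3
    have hlX0 : 0 < Real.log X := by linarith
    have hxX : x₀ ≤ Real.log X := by
      rw [Real.le_log_iff_exp_le hX0]
      exact (le_max_right _ _).trans hX
    obtain ⟨S, hS⟩ : ∃ S : Finset (Fin (r + 1) → ℤ), S = (hfin α hα X hX3).toFinset := ⟨_, rfl⟩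
    have hmem : ∀ z, z ∈ S ↔ z ∈ Sol α T X := fun z => by rw [hS, Set.Finite.mem_toFinset]
    have hncard : (Sol α T X).ncard = S.card := by
      rw [hS, Set.ncard_eq_toFinset_card _ (hfin α hα X hX3)]
    have hlow : c * Real.log X ^ r ≤ (S.card : ℝ) := by
      obtain ⟨S₁, h1, h2⟩ := Hm α hα (Real.log X) hxX
      refine h2.trans ?_
      have h3 : S₁ ⊆ S := by
        intro z hz
        rw [hmem]
        obtain ⟨q1, q2, q3⟩ := h1 z hz
        rw [Real.exp_log hX0] at q2
        rw [prod_eq α z q1] at q3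
        exact ⟨q1, q2, q3⟩
      exact_mod_cast Finset.card_le_card h3
    have hSc : (0 : ℝ) ≤ S.card := Nat.cast_nonneg _
    have hshare : ∀ Cd : ℝ, 0 < Cd → 
        Cd * Real.log X ^ (r - 1) ≤ Cd / c / Real.log X * S.card := by
      intro Cd hCd
      have h1 : Real.log X ^ (r - 1) * Real.log X = Real.log X ^ r := by
        rw [← pow_succ, show r - 1 + 1 = r by omega]
      have h2 : Cd * Real.log X ^ (r - 1) =
          Cd / c / Real.log X * (c * Real.log X ^ r) := by
        rw [← h1]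
        field_simp
      rw [h2]
      exact mul_le_mul_of_nonneg_left hlow (by positivity)
    have hpairs : ∀ Cd : ℝ, 0 < Cd → Cd ≤ Cb + Cc → ∀ Q : MvPolynomial (Fin (r + 1)) ℝ,
        Pool.Agent.Run7.h566.LS.FewIn S (val Q) (fun m => coeff m Q)
          (Cd * Real.log X ^ (r - 1)) → ∀ K : Subfield ℝ,
        (¬ ∃ t : ℝ, t ≠ 0 ∧ ∀ m, t * coeff m Q ∈ K) →
        ({z : (Fin (r + 1) → ℤ) × (Fin (r + 1) → ℤ) | z.1 ∈ Sol α T X ∧ z.2 ∈ Sol α T X ∧
            val Q z.1 / val Q z.2 ∈ K}.ncard : ℝ) ≤ Cm / Real.log X * (S.card : ℝ) ^ 2 := by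
      intro Cd hCd hCd' Q hQ K hK
      have h1 := Pool.Agent.Run7.h566.LS.few_pairs hQ K hK
      simp only [hmem] at h1
      refine h1.trans ?_
      have h2 := hshare Cd hCd
      calc 2 * (Cd * Real.log X ^ (r - 1)) * (S.card : ℝ)
          ≤ 2 * (Cd / c / Real.log X * S.card) * S.card := by gcongr
        _ = 2 * Cd / c / Real.log X * (S.card : ℝ) ^ 2 := by ring
        _ ≤ Cm / Real.log X * (S.card : ℝ) ^ 2 := by
            rw [hCm]
            gcongr
    rw [hncard]
    refine ⟨hlow, fun P hP => ?_, fun K hK => ?_⟩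
    · have hF := Fb α hα X hX3 S (fun z hz => (hmem z).1 hz) P hP
      have hBnn : 0 ≤ Cb * Real.log X ^ (r - 1) := by positivity
      have gen : ∀ (G : ∀ k : ℕ, (Fin k → ℝ) → Prop), (∀ v : Fin 0 → ℝ, G 0 v) →
          (∀ k K : ℕ, k < K → ∀ v : Fin k → ℝ, G k v → ∀ w : Fin K → ℝ, G K w →
            ∃ W : Submodule ℚ ℝ, (∀ y, ¬ G (k + 1) (Fin.snoc v y : Fin (k + 1) → ℝ) → y ∈ W) ∧
              ∃ i, w i ∉ W) →
          ∀ k : ℕ, (∃ m : Fin k → (Fin (r + 1) →₀ ℕ), G k (fun i => coeff (m i) P)) →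
            ({z : Fin k → (Fin (r + 1) → ℤ) | (∀ i, z i ∈ Sol α T X) ∧
              ¬ G k (fun i => val P (z i))}.ncard : ℝ) ≤
                Cm * k / Real.log X * (S.card : ℝ) ^ k := by
        rintro G hG0 hstep k ⟨m, hm⟩
        have h1 := Pool.Agent.Run7.h566.LS.few_tuples hBnn hF G hG0 hstep k m hm
        simp only [hmem] at h1
        refine h1.trans ?_
        rcases Nat.eq_zero_or_pos k with hk | hk
        · subst hk; simp
        · have h2 : (S.card : ℝ) ^ k = S.card * (S.card : ℝ) ^ (k - 1) := by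
            rw [← pow_succ']
            congr 1
            omega
          have h3 := hshare Cb hCb
          calc (k : ℝ) * (Cb * Real.log X ^ (r - 1)) * (S.card : ℝ) ^ (k - 1)
              ≤ k * (Cb / c / Real.log X * S.card) * (S.card : ℝ) ^ (k - 1) := by gcongr
            _ = (Cb / c * k / Real.log X) * (S.card : ℝ) ^ k := by rw [h2]; ring
            _ ≤ Cm * k / Real.log X * (S.card : ℝ) ^ k := by
                rw [hCm]
                gcongr
                linarith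
      refine ⟨fun K hK => hpairs Cb hCb (by linarith) P hF K hK, ?_, ?_⟩
      · exact gen (fun k v => LinearIndependent ℚ v) (fun v => linearIndependent_empty_type)
          fun k K hk v hv w hw => Pool.Agent.Run7.h566.CS.lin_step hk v hv w hw
      · refine gen (fun k v => AlgebraicIndependent ℚ v) (fun v => ?_)
          fun k K hk v hv w hw => Pool.Agent.Run7.h566.CS.alg_step hk v hv w hw
        rw [algebraicIndependent_empty_type_iff]
        exact (algebraMap ℚ ℝ).injective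
    · have hF := Fc α hα X hX3 S (fun z hz => (hmem z).1 hz) (prodForm α) (prodForm_hom α)
      have h1 := hpairs Cc hCc (by linarith) (prodForm α) hF K (by
        rintro ⟨t, ht, hco⟩
        obtain ⟨i, hi⟩ := hK
        apply hi
        -- the values at integer points
        have hval : ∀ z : Fin (r + 1) → ℤ, t * prodAt α z ∈ K := by
          intro z
          rw [← val_prodForm, val, MvPolynomial.eval_eq', Finset.mul_sum]
          refine K.sum_mem fun m _ => ?_
          rw [← mul_assoc]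
          refine K.mul_mem (hco m) (K.prod_mem fun j _ => K.pow_mem ?_ _)
          exact intCast_mem K (z j)
        have hα0 : ∀ j, α j ≠ 0 := by
          intro j h0
          have h1 := hα 1 le_rfl
          rw [Finset.prod_eq_zero (Finset.mem_univ j) (by rw [h0]; simp), mul_zero] at h1
          linarith
        have h1 := hval (Fin.cons (α := fun _ => ℤ) 1 (0 : Fin r → ℤ))
        have h2 := hval (Fin.cons (α := fun _ => ℤ) 1 (Pi.single i 1 : Fin r → ℤ))
        simp only [prodAt, Fin.cons_zero, Fin.cons_succ, Int.cast_one, mul_one, one_mul,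
          Pi.zero_apply, Int.cast_zero, sub_zero] at h1 h2
        have h3 : ∏ j : Fin r, (α j - ((Pi.single i 1 : Fin r → ℤ) j : ℝ)) =
            (α i - 1) * ∏ j ∈ Finset.univ.erase i, α j := by
          rw [← Finset.mul_prod_erase Finset.univ _ (Finset.mem_univ i)]
          congr 1
          · rw [Pi.single_eq_same, Int.cast_one]
          · refine Finset.prod_congr rfl fun j hj => ?_
            rw [Pi.single_eq_of_ne (Finset.ne_of_mem_erase hj), Int.cast_zero, sub_zero]
        rw [h3] at h2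
        rw [← Finset.mul_prod_erase Finset.univ _ (Finset.mem_univ i)] at h1
        set Q : ℝ := ∏ j ∈ Finset.univ.erase i, α j with hQ
        have hQ0 : Q ≠ 0 := Finset.prod_ne_zero_iff.2 fun j _ => hα0 j
        have h4 : t * Q ∈ K := by
          have := K.sub_mem h1 h2
          have h5 : t * (α i * Q) - t * ((α i - 1) * Q) = t * Q := by ring
          rwa [h5] at this
        have h5 : α i = t * (α i * Q) / (t * Q) := by
          field_simp
        rw [h5]
        exact K.div_mem h1 h4)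
      simpa only [val_prodForm] using h1

end Pool.Agent.Results.MP_0ea415_nt.SmallSolutions
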