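import Pool.Agent.Run7.h430.TW.Unif
import Pool.Agent.Results.MP_0ea415_nt.ProgressionsPowerSaving

/-!
# Littlewood's conjecture at the members of almost all orbits of Euler's function

Let `φ_k` be the `k`-th iterate of Euler's function, `φ_0(m) = m`. Let `f` be a positive multiplicative function of at most
polynomial growth such that `f p ≤ M p` for the large primes `p`, with different values at different large primes; for example
the identity, Euler's function or the sum of the divisors. For real `α, β, γ` and `ε > 0` we ask for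
`q ‖qα‖ ‖qβ - γ‖ < ε` for infinitely many `q`. For every `D` there is `c > 0` such that the following holds, for the integers
`v = f(φ_k(m))`.

* Let `0 < ε ≤ 1/2`, let `G` have steps bounded below by a positive constant and growth at most `v^d`, for example
  `G v = a v^d` with `a > 0`, `d ≥ 1`, and let `κ ≥ 0`, `d (1 - c ε / log (1/ε)) + κ < 1`. There is `K(m)` tending to infinity
  such that for all `m ≤ N` but `o(N)`, UNIFORMLY in all real `α` and all real polynomials `P` of degree at most `D` with a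
  nonconstant coefficient outside `ℚ + ℚα`, for all `k ≤ K(m)`: `q ‖qα‖ ‖q P(n) - γ‖ < ε` has infinitely many solutions `q` for
  ALL integers `n` within `v^κ` of `G v` and ALL real `γ`. The same holds for `q ‖qα‖ ‖q g(n) β‖ < ε`, uniformly in all real
  `α, β` (rational or in `ℚ + ℚα` or not) and all integer polynomials `g` with `1 ≤ deg g ≤ D`.
* `ε` may tend to `0`: there is `K(m)` tending to infinity such that for all `m ≤ N` but `o(N)`, with the same uniformity, for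
  all integers `n = a v + h` with `k, a, |h| ≤ K(m)`, one has `liminf q ‖qα‖ ‖q P(n) - γ‖ ≤ 1 / K(m)` for all `γ` (resp.
  `liminf q ‖qα‖ ‖q g(n) β‖ ≤ 1 / K(m)`). So the pairs `(α, φ_k(m) β)` satisfy Littlewood's conjecture asymptotically,
  uniformly in `α, β` and the first `K(m)` iterates.

The iterates of Euler's function are not multiplicative, their values form a thin set and are taken with very large
multiplicities, and so this does not follow from the counts of the exceptional dilations.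

Proof. The exceptional `n` have a power saving, uniformly (`ProgressionsPowerSaving` of this problem, starting files). The tool
`N760/IT` (starting files) carries it over to the orbits; for the uniformity and the second part see
`Run7/h430/TW/{Slow,Unif}`.
-/

set_option autoImplicit false

namespace Pool.Agent.Results.MP_0ea415_nt.TotientOrbits

open Finset Filter Topology Polynomial

/-- `q ‖qα‖ ‖qβ - γ‖ < ε` for infinitely many `q` -/
def Good (ε α β γ : ℝ) : Prop :=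
  ∃ᶠ q : ℕ in atTop, (q : ℝ) * |q * α - round (q * α)| * |(q * β - γ) - round (q * β - γ)| < ε

/-- A positive multiplicative function of at most polynomial growth, at most `M p` at the large primes `p` and with different
values at different large primes. -/
structure Moderate (f : ℕ → ℕ) : Prop where
  mul : ∀ m n : ℕ, Nat.Coprime m n → f (m * n) = f m * f n
  pos : ∀ m : ℕ, 1 ≤ m → 1 ≤ f m
  growth : ∃ C D : ℕ, ∀ m : ℕ, 1 ≤ m → f m ≤ C * m ^ D
  prime : ∃ P M : ℕ, ∀ p : ℕ, P ≤ p → p.Prime → f p ≤ M * p ∧ ∀ q : ℕ, P ≤ q → q.Prime → f q = f p → q = p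

/-- The steps of `G` are at least a positive constant, and `G` grows at most like `v ^ d`, `d ≥ 1`. -/
structure Expanding (G : ℕ → ℝ) (d : ℝ) : Prop where
  one_le : 1 ≤ d
  step : ∃ a : ℝ, 0 < a ∧ ∀ v : ℕ, 1 ≤ v → a ≤ G (v + 1) - G v
  growth : ∃ C : ℝ, ∀ v : ℕ, 1 ≤ v → G v ≤ C * (v : ℝ) ^ d

open Classical in
/-- The number of the positive integers `m ≤ N` without the property `P`. -/
noncomputable def exc (N : ℕ) (P : ℕ → Prop) : ℕ := ((Icc 1 N).filter (fun m => ¬ P m)).card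

/-- the value of `f` at the `k`-th iterate of Euler's function -/
def orb (f : ℕ → ℕ) (k m : ℕ) : ℕ := f (Nat.totient^[k] m)

/-- `P` has a nonconstant coefficient outside `ℚ + ℚα`. -/
def Outside (α : ℝ) (P : ℝ[X]) : Prop := ∃ j : ℕ, 1 ≤ j ∧ ∀ u v : ℚ, P.coeff j ≠ u + v * α

theorem lm_of {f : ℕ → ℕ} (hf : Moderate f) : Pool.Agent.N733.TG.LM f := ⟨hf.mul, hf.pos, hf.growth, hf.prime⟩

theorem of_lm {f : ℕ → ℕ} (hf : Pool.Agent.N733.TG.LM f) : Moderate f := ⟨hf.mul, hf.pos, hf.growth, hf.prime⟩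

/-- from the first `N` integers to the positive integers up to `X` -/
theorem count_of {Q : ℕ → Prop} {A s : ℝ} (hA : 0 ≤ A) (hs0 : 0 ≤ s) (hs1 : s ≤ 1)
    (h : ∀ N : ℕ, 1 ≤ N → ∀ F : Finset ℕ, (∀ t ∈ F, t < N ∧ ¬ Q t) → (F.card : ℝ) ≤ A * (N : ℝ) ^ s) (X : ℕ) (hX : 1 ≤ X) :
    ({t : ℕ | 1 ≤ t ∧ t ≤ X ∧ ¬ Q t}.ncard : ℝ) ≤ 2 * A * (X : ℝ) ^ s := by
  classical
  have hfin : {t : ℕ | 1 ≤ t ∧ t ≤ X ∧ ¬ Q t}.Finite := (Set.finite_Iic X).subset (fun t ht => ht.2.1)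
  have h1 := h (X + 1) (by omega) hfin.toFinset (fun t ht => by
    rw [Set.Finite.mem_toFinset] at ht
    exact ⟨by have := ht.2.1; omega, ht.2.2⟩)
  rw [Set.ncard_eq_toFinset_card _ hfin]
  refine h1.trans ?_
  have hXr : (1 : ℝ) ≤ X := by exact_mod_cast hX
  have h2 : (((X + 1 : ℕ) : ℝ)) ^ s ≤ 2 * (X : ℝ) ^ s := by
    calc (((X + 1 : ℕ) : ℝ)) ^ s ≤ (2 * (X : ℝ)) ^ s := Real.rpow_le_rpow (by positivity) (by push_cast; linarith) hs0
      _ = 2 ^ s * (X : ℝ) ^ s := Real.mul_rpow (by norm_num) (by positivity)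
      _ ≤ 2 ^ (1 : ℝ) * (X : ℝ) ^ s :=
        mul_le_mul_of_nonneg_right (Real.rpow_le_rpow_of_exponent_le (by norm_num) hs1) (by positivity)
      _ = 2 * (X : ℝ) ^ s := by rw [Real.rpow_one]
  calc A * (((X + 1 : ℕ) : ℝ)) ^ s ≤ A * (2 * (X : ℝ) ^ s) := mul_le_mul_of_nonneg_left h2 hA
    _ = 2 * A * (X : ℝ) ^ s := by ring

theorem good_mono {ε ε' α β γ : ℝ} (h : ε ≤ ε') (hg : Good ε α β γ) : Good ε' α β γ :=
  hg.mono (fun _ hq => hq.trans_le h)

theorem exp_bounds {c ε : ℝ} (hc0 : 0 < c) (hc1 : c ≤ 1) (hε : 0 < ε) (hε2 : ε ≤ 1 / 2) :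
    0 ≤ 1 - c * ε / Real.log (1 / ε) ∧ 1 - c * ε / Real.log (1 / ε) < 1 := by
  have hl : 69 / 100 < Real.log (1 / ε) := by
    have h1 := Real.log_two_gt_d9
    have h2 : Real.log 2 ≤ Real.log (1 / ε) := Real.log_le_log (by norm_num) (by
      rw [le_div_iff₀ hε]
      linarith)
    linarith
  constructor
  · rw [sub_nonneg, div_le_one (by linarith)]
    nlinarith
  · have : 0 < c * ε / Real.log (1 / ε) := by
      apply div_pos (by positivity) (by linarith)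
    linarith

/-- the two counts, with one constant -/
theorem counts (D : ℕ) : ∃ c C : ℝ, 0 < c ∧ c ≤ 1 ∧ 0 < C ∧ ∀ ε : ℝ, 0 < ε → ε ≤ 1 / 2 → ∀ α : ℝ,
    (∀ P : ℝ[X], P.natDegree ≤ D → Outside α P → ∀ X : ℕ, 1 ≤ X →
      ({t : ℕ | 1 ≤ t ∧ t ≤ X ∧ ¬ ∀ γ : ℝ, Good ε α (P.eval (t : ℝ)) γ}.ncard : ℝ) ≤
        2 * (C / ε) * (X : ℝ) ^ (1 - c * ε / Real.log (1 / ε))) ∧
    (∀ (β : ℝ) (g : ℤ[X]), 1 ≤ g.natDegree → g.natDegree ≤ D → ∀ X : ℕ, 1 ≤ X →
      ({t : ℕ | 1 ≤ t ∧ t ≤ X ∧ ¬ Good ε α (((g.eval (t : ℤ) : ℤ) : ℝ) * β) 0}.ncard : ℝ) ≤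
        2 * (C / ε) * (X : ℝ) ^ (1 - c * ε / Real.log (1 / ε))) := by
  classical
  obtain ⟨c, C, hc, hC, h⟩ := Pool.Agent.Results.MP_0ea415_nt.ProgressionsPowerSaving.result D
  refine ⟨min c 1, C, lt_min hc one_pos, min_le_right _ _, hC, fun ε hε hε2 α => ?_⟩
  obtain ⟨h1, h2, -⟩ := h ε hε hε2 α
  obtain ⟨b1, b2⟩ := exp_bounds (lt_min hc one_pos) (min_le_right c 1) hε hε2
  have hl : 0 < Real.log (1 / ε) := Real.log_pos (by
    rw [lt_div_iff₀ hε]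
    linarith)
  have hle : 1 - c * ε / Real.log (1 / ε) ≤ 1 - min c 1 * ε / Real.log (1 / ε) := by
    have : min c 1 * ε / Real.log (1 / ε) ≤ c * ε / Real.log (1 / ε) := by
      gcongr
      exact min_le_left _ _
    linarith
  refine ⟨fun P hP hout => count_of (by positivity) b1 b2.le ?_, fun β g hg1 hg2 => count_of (by positivity) b1 b2.le ?_⟩
  · intro N hN F hF
    have hNr : (1 : ℝ) ≤ N := by exact_mod_cast hN
    have h3 := h1 P hP N N hN le_rfl (by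
      intro b hb _
      obtain ⟨j, hj1, hj⟩ := hout
      refine ⟨j, hj1, fun u v he => ?_⟩
      have hb0 : (b : ℝ) ≠ 0 := by
        have : (1 : ℝ) ≤ b := by exact_mod_cast hb
        positivity
      refine hj (u / b) (v / b) ?_
      push_cast
      field_simp
      linarith)
    have h4 : (F.card : ℝ) ≤ (((Finset.range N).filter
        (fun l : ℕ => ¬ ∀ γ : ℝ, ProgressionsPowerSaving.Good ε α (P.eval (l : ℝ)) γ)).card : ℝ) := by
      apply Nat.cast_le.2 (card_le_card _)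
      intro t ht
      rw [mem_filter, mem_range]
      exact hF t ht
    refine h4.trans (h3.trans ?_)
    calc C / ε * N * (N : ℝ) ^ (-(c * ε / Real.log (1 / ε)))
        = C / ε * (N : ℝ) ^ (1 - c * ε / Real.log (1 / ε)) := by
          rw [sub_eq_add_neg, Real.rpow_add (by linarith), Real.rpow_one]
          ring
      _ ≤ C / ε * (N : ℝ) ^ (1 - min c 1 * ε / Real.log (1 / ε)) :=
          mul_le_mul_of_nonneg_left (Real.rpow_le_rpow_of_exponent_le hNr hle) (by positivity)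
  · intro N hN F hF
    have hNr : (1 : ℝ) ≤ N := by exact_mod_cast hN
    have h3 := h2 β g hg1 hg2 N hN
    have h4 : (F.card : ℝ) ≤ (((Finset.range N).filter
        (fun l : ℕ => ¬ ProgressionsPowerSaving.Good ε α (((g.eval (l : ℤ) : ℤ) : ℝ) * β) 0)).card : ℝ) := by
      apply Nat.cast_le.2 (card_le_card _)
      intro t ht
      rw [mem_filter, mem_range]
      exact hF t ht
    refine h4.trans (h3.trans ?_)
    exact mul_le_mul_of_nonneg_left (Real.rpow_le_rpow_of_exponent_le hNr hle) (by positivity)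

/-- the two families with `ε → 0` -/
def Fam (D : ℕ) : (ℝ × ℝ[X]) ⊕ (ℝ × ℝ × ℤ[X]) → ℕ → ℕ → Prop
  | Sum.inl (α, P), j, n => P.natDegree ≤ D → Outside α P → ∀ γ : ℝ, Good (1 / (j + 2 : ℝ)) α (P.eval (n : ℝ)) γ
  | Sum.inr (α, β, g), j, n => 1 ≤ g.natDegree → g.natDegree ≤ D →
      Good (1 / (j + 2 : ℝ)) α (((g.eval (n : ℤ) : ℤ) : ℝ) * β) 0

theorem half (j : ℕ) : 0 < 1 / (j + 2 : ℝ) ∧ 1 / (j + 2 : ℝ) ≤ 1 / 2 := by
  refine ⟨by positivity, one_div_le_one_div_of_le (by norm_num) ?_⟩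
  have : (0 : ℝ) ≤ j := Nat.cast_nonneg j
  linarith

theorem ncard_zero {A : Set ℕ} {b : ℝ} (h : ∀ t, t ∉ A) (hb : 0 ≤ b) : (A.ncard : ℝ) ≤ b := by
  rw [Set.eq_empty_of_forall_notMem h, Set.ncard_empty]
  exact_mod_cast hb

theorem slow {D : ℕ} (c C : ℝ) (hc0 : 0 < c) (hc1 : c ≤ 1) (hC : 0 < C)
    (h1 : ∀ ε : ℝ, 0 < ε → ε ≤ 1 / 2 → ∀ α : ℝ,
      (∀ P : ℝ[X], P.natDegree ≤ D → Outside α P → ∀ X : ℕ, 1 ≤ X →
        ({t : ℕ | 1 ≤ t ∧ t ≤ X ∧ ¬ ∀ γ : ℝ, Good ε α (P.eval (t : ℝ)) γ}.ncard : ℝ) ≤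
          2 * (C / ε) * (X : ℝ) ^ (1 - c * ε / Real.log (1 / ε))) ∧
      (∀ (β : ℝ) (g : ℤ[X]), 1 ≤ g.natDegree → g.natDegree ≤ D → ∀ X : ℕ, 1 ≤ X →
        ({t : ℕ | 1 ≤ t ∧ t ≤ X ∧ ¬ Good ε α (((g.eval (t : ℤ) : ℤ) : ℝ) * β) 0}.ncard : ℝ) ≤
          2 * (C / ε) * (X : ℝ) ^ (1 - c * ε / Real.log (1 / ε)))) {f : ℕ → ℕ} (hf : Moderate f) :
    ∃ K : ℕ → ℕ, Tendsto K atTop atTop ∧ Run7.h430.TW.UnifAA (fun (i : (ℝ × ℝ[X]) ⊕ (ℝ × ℝ × ℤ[X])) m =>
      ∀ k ≤ K m, ∀ a : ℕ, 1 ≤ a → a ≤ K m → ∀ h : ℤ, |h| ≤ K m →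
      ∀ n : ℕ, 1 ≤ n → (n : ℤ) = a * orb f k m + h → Fam D i (K m) n) := by
  refine Run7.h430.TW.orbit_slow_unif (Fam D) ?_ (fun j => ?_) (lm_of hf)
  · intro i a b n hab hq
    have e : 1 / (b + 2 : ℝ) ≤ 1 / (a + 2 : ℝ) := one_div_le_one_div_of_le (by positivity) (by
      have : (a : ℝ) ≤ b := by exact_mod_cast hab
      linarith)
    rcases i with ⟨α, P⟩ | ⟨α, β, g⟩
    · exact fun u1 u2 γ => good_mono e (hq u1 u2 γ)
    · exact fun u1 u2 => good_mono e (hq u1 u2)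
  · obtain ⟨e1, e2⟩ := half j
    refine ⟨_, (exp_bounds hc0 hc1 e1 e2).1, (exp_bounds hc0 hc1 e1 e2).2, 2 * (C / (1 / (j + 2 : ℝ))), fun i X hX => ?_⟩
    rcases i with ⟨α, P⟩ | ⟨α, β, g⟩
    · by_cases hu : P.natDegree ≤ D ∧ Outside α P
      · have h3 := (h1 _ e1 e2 α).1 P hu.1 hu.2 X hX
        refine le_trans (le_of_eq ?_) h3
        congr 2
        ext t
        simp only [Fam, Set.mem_ofPred_eq]
        constructor
        · rintro ⟨a1, a2, a3⟩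
          exact ⟨a1, a2, fun hh => a3 (fun _ _ => hh)⟩
        · rintro ⟨a1, a2, a3⟩
          exact ⟨a1, a2, fun hh => a3 (hh hu.1 hu.2)⟩
      · refine ncard_zero (fun t ht => ht.2.2 (fun u1 u2 => absurd ⟨u1, u2⟩ hu)) (by positivity)
    · by_cases hu : 1 ≤ g.natDegree ∧ g.natDegree ≤ D
      · have h3 := (h1 _ e1 e2 α).2 β g hu.1 hu.2 X hX
        refine le_trans (le_of_eq ?_) h3
        congr 2
        ext t
        simp only [Fam, Set.mem_ofPred_eq]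
        constructor
        · rintro ⟨a1, a2, a3⟩
          exact ⟨a1, a2, fun hh => a3 (fun _ _ => hh)⟩
        · rintro ⟨a1, a2, a3⟩
          exact ⟨a1, a2, fun hh => a3 (hh hu.1 hu.2)⟩
      · refine ncard_zero (fun t ht => ht.2.2 (fun u1 u2 => absurd ⟨u1, u2⟩ hu)) (by positivity)

theorem exc_mono {N : ℕ} {P Q : ℕ → Prop} {δ : ℝ} {dP : DecidablePred (fun m => ¬ P m)}
    (h : (((@Finset.filter _ (fun m => ¬ P m) dP (Icc 1 N))).card : ℝ) ≤ δ * N)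
    (hPQ : ∀ m, P m → Q m) : (exc N Q : ℝ) ≤ δ * N := by
  classical
  refine le_trans (Nat.cast_le.2 (Pool.Agent.N826.IT.Orb.card_mono' ?_)) h
  intro m hm h1
  exact hm (hPQ m h1)

/-- **Littlewood's conjecture along the orbits of Euler's function.** -/
theorem result (D : ℕ) : ∃ c : ℝ, 0 < c ∧
    (∀ f : ℕ → ℕ, Moderate f →
      -- windows, for a fixed `ε`
      (∀ ε : ℝ, 0 < ε → ε ≤ 1 / 2 → ∀ (G : ℕ → ℝ) (d : ℝ), Expanding G d → ∀ κ : ℝ, 0 ≤ κ →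
        d * (1 - c * ε / Real.log (1 / ε)) + κ < 1 → ∃ K : ℕ → ℕ, Tendsto K atTop atTop ∧
        ∀ δ : ℝ, 0 < δ → ∃ N₀ : ℕ, ∀ N : ℕ, N₀ ≤ N → ∀ α : ℝ,
          (∀ P : ℝ[X], P.natDegree ≤ D → Outside α P →
            (exc N (fun m => ∀ k ≤ K m, ∀ n : ℕ, 1 ≤ n → |(n : ℝ) - G (orb f k m)| ≤ (orb f k m : ℝ) ^ κ →
              ∀ γ : ℝ, Good ε α (P.eval (n : ℝ)) γ) : ℝ) ≤ δ * N) ∧
          (∀ (β : ℝ) (g : ℤ[X]), 1 ≤ g.natDegree → g.natDegree ≤ D →
            (exc N (fun m => ∀ k ≤ K m, ∀ n : ℕ, 1 ≤ n → |(n : ℝ) - G (orb f k m)| ≤ (orb f k m : ℝ) ^ κ →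
              Good ε α (((g.eval (n : ℤ) : ℤ) : ℝ) * β) 0) : ℝ) ≤ δ * N)) ∧
      -- `ε` tending to zero
      (∃ K : ℕ → ℕ, Tendsto K atTop atTop ∧
        ∀ δ : ℝ, 0 < δ → ∃ N₀ : ℕ, ∀ N : ℕ, N₀ ≤ N → ∀ α : ℝ,
          (∀ P : ℝ[X], P.natDegree ≤ D → Outside α P →
            (exc N (fun m => ∀ k ≤ K m, ∀ a : ℕ, 1 ≤ a → a ≤ K m → ∀ h : ℤ, |h| ≤ K m → ∀ n : ℕ, 1 ≤ n →
              (n : ℤ) = a * orb f k m + h → ∀ γ : ℝ, Good (1 / K m) α (P.eval (n : ℝ)) γ) : ℝ) ≤ δ * N) ∧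
          (∀ (β : ℝ) (g : ℤ[X]), 1 ≤ g.natDegree → g.natDegree ≤ D →
            (exc N (fun m => ∀ k ≤ K m, ∀ a : ℕ, 1 ≤ a → a ≤ K m → ∀ h : ℤ, |h| ≤ K m → ∀ n : ℕ, 1 ≤ n →
              (n : ℤ) = a * orb f k m + h → Good (1 / K m) α (((g.eval (n : ℤ) : ℤ) : ℝ) * β) 0) : ℝ) ≤ δ * N))) ∧
    (Moderate (fun m => m) ∧ Moderate Nat.totient ∧ Moderate (fun m => ∑ d ∈ m.divisors, d)) ∧
    ∀ α d : ℝ, 0 < α → 1 ≤ d → Expanding (fun v => α * (v : ℝ) ^ d) d := by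
  obtain ⟨c, C, hc, hc1, hC, hcount⟩ := counts D
  refine ⟨c, hc, fun f hf => ⟨fun ε hε hε2 G d hG κ hκ h1 => ?_, ?_⟩,
    ⟨of_lm Pool.Agent.N760.IT.lm_id, of_lm Pool.Agent.N733.TG.lm_totient, of_lm Pool.Agent.N733.TG.lm_sigma⟩,
    fun α d hα hd => ?_⟩
  · have e : Pool.Agent.N733.TG.Expanding G d := ⟨hG.one_le, hG.step, hG.growth⟩
    obtain ⟨b1, b2⟩ := exp_bounds hc hc1 hε hε2
    obtain ⟨K, hK, h2⟩ := Run7.h430.TW.orbit_good_nat_unif (lm_of hf) e b1 hκ h1 (2 * (C / ε))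
    refine ⟨K, hK, fun δ hδ => ?_⟩
    obtain ⟨N₀, h3⟩ := h2 δ hδ
    refine ⟨N₀, fun N hN α => ⟨fun P hP hout => ?_, fun β g hg1 hg2 => ?_⟩⟩
    · exact exc_mono (h3 N hN ⟨_, fun X hX => (hcount ε hε hε2 α).1 P hP hout X hX⟩) (fun m hm => hm)
    · exact exc_mono (h3 N hN ⟨_, fun X hX => (hcount ε hε hε2 α).2 β g hg1 hg2 X hX⟩) (fun m hm => hm)
  · obtain ⟨K, hK, h2⟩ := slow c C hc hc1 hC hcount hf
    refine ⟨K, hK, fun δ hδ => ?_⟩
    obtain ⟨N₀, h3⟩ := h2 δ hδ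
    have hle : ∀ m a : ℕ, 1 ≤ a → a ≤ K m → 1 / ((K m : ℕ) + 2 : ℝ) ≤ 1 / (K m : ℝ) := by
      intro m a ha1 ha
      refine one_div_le_one_div_of_le ?_ (by linarith)
      have : (1 : ℝ) ≤ K m := by exact_mod_cast ha1.trans ha
      linarith
    refine ⟨N₀, fun N hN α => ⟨fun P hP hout => ?_, fun β g hg1 hg2 => ?_⟩⟩
    · exact exc_mono (h3 N hN (Sum.inl (α, P))) (fun m hm k hk a ha1 ha h hh n hn he γ =>
        good_mono (hle m a ha1 ha) (hm k hk a ha1 ha h hh n hn he hP hout γ))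
    · exact exc_mono (h3 N hN (Sum.inr (α, β, g))) (fun m hm k hk a ha1 ha h hh n hn he =>
        good_mono (hle m a ha1 ha) (hm k hk a ha1 ha h hh n hn he hg1 hg2))
  · obtain ⟨h1, h2, h3⟩ := Pool.Agent.N733.TG.expanding_pow hα hd
    exact ⟨h1, h2, h3⟩

end Pool.Agent.Results.MP_0ea415_nt.TotientOrbits
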